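import Pool.Agent.Lib.MP_305fdd_al.Su.PR.Base
import Pool.Agent.Lib.MP_305fdd_al.Su.U.Nil
import Pool.Agent.Lib.MP_305fdd_al.Su.RS.NSG

/-!
# MP_305fdd_al, surface groups, block PR: `PropR` for the ring of the traces of the vertex groups

`propR_app`: for a relatively minimal splitting `S` of `Γ` (in which `P` is elliptic) and a product `y` of
safe elements, `PropR` holds for the field of the traces of `P` and the localised ring of the traces of
the vertex groups of `S`.
-/

set_option autoImplicit false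
set_option linter.unusedSectionVars false

namespace Pool.Agent.SuPR

open Matrix (SpecialLinearGroup)
open Pool.Agent.FrD Pool.Agent.SuU Pool.Agent.F2Ch Pool.Agent.F2RF
  Pool.Agent.FrN Pool.Agent.FrAsm Pool.Agent.SuS Pool.Agent.SuL Pool.Agent.FrS Pool.Agent.SuRS

section

variable {Γ K F : Type} [Group Γ] [Field K] [Field F] [Algebra (ZMod 2) K]
  [Algebra (ZMod 2) F] [Algebra K F] {T : Γ → K} {ρ : Γ →* SpecialLinearGroup (Fin 2) F}

/-- `PropR` under the hypothesis that there is no valuation which is trivial on the field of the traces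
of `P` -/
theorem propR_of (H : Sc Γ K F T ρ) (S : GG Γ) (hS : S.Adm) {y : K} (hy : y ∈ BV T S)
    (P : Subgroup Γ) (hPfg : P.FG) (hPS : ∀ g ∈ P, T g ∈ BV T S)
    (hns : ¬ ∃ x : KV T S → ℝ, IsV x ∧ (∃ z, x z ≠ 0) ∧ (∀ z ∈ BVy T S y, z ≠ 0 → x z ≤ 0) ∧
      ∀ c ∈ P, ∀ h : T c ∈ KV T S, 0 ≤ x ⟨T c, h⟩) :
    PropR 2 (iPV hPS) (BVy T S y).toSubring := by
  have hBle : BP T P ≤ BV T S := by
    refine Algebra.adjoin_le ?_
    rintro _ ⟨g, hg, rfl⟩
    exact hPS g hg
  let : Algebra (KP T P) (KV T S) := (iPV hPS).toAlgebra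
  have : IsScalarTower (ZMod 2) (KP T P) (KV T S) :=
    IsScalarTower.of_algebraMap_eq' (Subsingleton.elim _ _)
  refine propR_base ((BP T P).comap (KP T P).val) (BP_comap_fg H.tr hPfg) (BP_frac P)
    (BVy T S y) ?_ (sc_BVy_fg H hS.fgV hy) (BVy_frac y) ?_
  · intro b hbP
    change (b : K) ∈ ly (BV T S) y
    exact le_ly _ _ (hBle hbP)
  · rintro ⟨v, hv, ht, hne, hle⟩
    refine hns ⟨v, hv, hne, hle, fun c hc h => ?_⟩
    have h1 : T c ∈ KP T P := IntermediateField.subset_adjoin _ _ ⟨c, hc, rfl⟩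
    exact (ht ⟨T c, h1⟩).ge

/-- `PropR` for a relatively minimal splitting -/
theorem propR_app (H : Sc Γ K F T ρ) {P : Subgroup Γ} (hPfg : P.FG) (S : GG Γ)
    (hS : SminH ρ P S) (y : K) (hy : SafeProd T S y) :
    PropR 2 (iPV (fun _ hg => hS.1.mem H.tr hg)) (BVy T S y).toSubring :=
  propR_of H S hS.1.1 hy.mem P hPfg _ (nsgH H hPfg hS hy)

end

end Pool.Agent.SuPR
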