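import Pool.Agent.Lib.MP_305fdd_al.Su.PR.Fd

/-!
# MP_305fdd_al, surface groups, block PR: adapted `2`-bases

`x`: elements whose values are a basis of the value group, `y`: lifts of a `2`-basis of the residue
field.  The monomials in `x`, `y` are valuation independent over `K ^ 2`.
-/

set_option autoImplicit false
set_option linter.unusedSectionVars false

namespace Pool.Agent.SuPR

open Pool.Agent.FrD Pool.Agent.FrF Pool.Agent.SuU IsLocalRing Pool.Agent.F2Ch Pool.Agent.F2RF
open scoped Classical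

section

variable {K : Type} [Field K] {O : ValuationSubring K}

/-- the residue (zero outside of the valuation ring) -/
noncomputable def Rs (O : ValuationSubring K) (w : K) : ResidueField O :=
  if h : w ∈ O then residue O ⟨w, h⟩ else 0

theorem Rs_coe (w : O) : Rs O (w : K) = residue O w := dif_pos w.2

theorem Rs_of {w : K} (h : w ∈ O) : Rs O w = residue O ⟨w, h⟩ := dif_pos h

theorem Rs_add {w w' : K} (h : w ∈ O) (h' : w' ∈ O) : Rs O (w + w') = Rs O w + Rs O w' := by
  rw [Rs_of h, Rs_of h', Rs_of (O.add_mem _ _ h h'), ← map_add]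
  rfl

theorem Rs_mul {w w' : K} (h : w ∈ O) (h' : w' ∈ O) : Rs O (w * w') = Rs O w * Rs O w' := by
  rw [Rs_of h, Rs_of h', Rs_of (O.mul_mem _ _ h h'), ← map_mul]
  rfl

theorem Rs_one : Rs O (1 : K) = 1 := by
  rw [Rs_of O.one_mem]
  exact map_one _

theorem Rs_zero : Rs O (0 : K) = 0 := by
  rw [Rs_of O.zero_mem]
  exact map_zero _

theorem Rs_pow {w : K} (h : w ∈ O) (n : ℕ) : Rs O (w ^ n) = Rs O w ^ n := by
  induction n with
  | zero => rw [pow_zero, pow_zero, Rs_one]
  | succ n ih => rw [pow_succ, pow_succ, Rs_mul (pow_mem h n) h, ih]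

theorem Rs_sum {ι : Type} (s : Finset ι) (w : ι → K) (h : ∀ i ∈ s, w i ∈ O) :
    Rs O (∑ i ∈ s, w i) = ∑ i ∈ s, Rs O (w i) := by
  induction s using Finset.induction_on with
  | empty => rw [Finset.sum_empty, Finset.sum_empty, Rs_zero]
  | insert a s ha ih =>
    rw [Finset.sum_insert ha, Finset.sum_insert ha, Rs_add (h a (Finset.mem_insert_self _ _))
      (O.toSubring.sum_mem fun i hi => h i (Finset.mem_insert_of_mem hi)),
      ih fun i hi => h i (Finset.mem_insert_of_mem hi)]

theorem Rs_eq_zero {w : K} (h : w ∈ O) : Rs O w = 0 ↔ O.valuation w < 1 := by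
  rw [Rs_of h]
  exact rs_eq_zero h

theorem val_of_Rs {w : K} (h : Rs O w ≠ 0) : O.valuation w = 1 := by
  by_cases hw : w ∈ O
  · rw [Rs_of hw] at h
    exact val_of_res h
  · exact absurd (dif_neg hw) h

theorem Rs_ne_zero {w : K} (h : O.valuation w = 1) : Rs O w ≠ 0 := by
  rw [Ne, Rs_eq_zero (mem_of_val_one h), h]
  exact lt_irrefl _

variable {m : ℕ} {y : Fin m → O} {ρ : (Fin m → Fin 2) → ResidueField O → ResidueField O}

theorem Rs_monY (b : Fin m → Fin 2) : Rs O (monY (p := 2) (fun j => (y j : K)) b) =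
    monY (p := 2) (fun j => residue O (y j)) b := by
  have h1 : monY (p := 2) (fun j => (y j : K)) b = ((∏ j, y j ^ (b j : ℕ) : O) : K) := by
    unfold monY
    simp
  rw [h1, Rs_coe, map_prod]
  simp only [map_pow]
  rfl

theorem monY_mem (b : Fin m → Fin 2) : monY (p := 2) (fun j => (y j : K)) b ∈ O := by
  have h1 : monY (p := 2) (fun j => (y j : K)) b = ((∏ j, y j ^ (b j : ℕ) : O) : K) := by
    unfold monY
    simp
  rw [h1]
  exact Subtype.prop _

/-- the value of a combination of the monomials in `y` -/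
theorem val_y (hy : IsPB 2 (monY (p := 2) (fun j => residue O (y j))) ρ)
    (e : (Fin m → Fin 2) → K) (he : ∃ b, e b ≠ 0) :
    ∃ b0, e b0 ≠ 0 ∧ (∀ b, O.valuation (e b) ≤ O.valuation (e b0)) ∧
      O.valuation (∑ b, e b ^ 2 * monY (p := 2) (fun j => (y j : K)) b) =
        O.valuation (e b0 ^ 2) := by
  obtain ⟨b1, hb1⟩ := he
  obtain ⟨b0, _, hmax⟩ := Finset.exists_max_image (Finset.univ : Finset (Fin m → Fin 2))
    (fun b => O.valuation (e b)) ⟨b1, Finset.mem_univ _⟩
  have hb0 : e b0 ≠ 0 := by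
    intro h0
    have h1 := hmax b1 (Finset.mem_univ _)
    simp only [h0, map_zero, le_zero_iff, map_eq_zero] at h1
    exact hb1 h1
  refine ⟨b0, hb0, fun b => hmax b (Finset.mem_univ _), ?_⟩
  have hv0 : O.valuation (e b0) ≠ 0 := by
    rw [Ne, map_eq_zero]
    exact hb0
  have hmem : ∀ b, e b / e b0 ∈ O := by
    intro b
    rw [← O.valuation_le_one_iff, map_div₀]
    exact (div_le_one₀ (zero_lt_iff.2 hv0)).2 (hmax b (Finset.mem_univ _))
  have h1 : ∑ b, e b ^ 2 * monY (p := 2) (fun j => (y j : K)) b =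
      e b0 ^ 2 * ∑ b, (e b / e b0) ^ 2 * monY (p := 2) (fun j => (y j : K)) b := by
    rw [Finset.mul_sum]
    refine Finset.sum_congr rfl fun b _ => ?_
    field_simp
  have h2 : Rs O (∑ b, (e b / e b0) ^ 2 * monY (p := 2) (fun j => (y j : K)) b) ≠ 0 := by
    rw [Rs_sum _ _ fun b _ => O.mul_mem _ _ (pow_mem (hmem b) 2) (monY_mem b)]
    intro h0
    have h3 : ∑ b, Rs O (e b / e b0) ^ 2 * monY (p := 2) (fun j => residue O (y j)) b = 0 := by
      rw [← h0]
      refine Finset.sum_congr rfl fun b _ => ?_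
      rw [Rs_mul (pow_mem (hmem b) 2) (monY_mem b), Rs_pow (hmem b), Rs_monY]
    have h4 := hy.uniq (fun b => Rs O (e b / e b0)) b0
    have h5 := hy.uniq (fun _ => 0) b0
    simp only [ne_eq, OfNat.ofNat_ne_zero, not_false_eq_true, zero_pow, zero_mul,
      Finset.sum_const_zero] at h5
    rw [h3, h5, div_self hb0, Rs_one] at h4
    exact zero_ne_one h4
  rw [h1, map_mul, val_of_Rs h2, mul_one]

variable {r : ℕ} (b : Module.Basis (Fin r) ℤ (Additive (O.ValueGroup)ˣ)) (x : Fin r → Kˣ)
  (hx : ∀ i, vl O (x i) = b i)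

/-- the index set of the monomials -/
abbrev Jx (r m : ℕ) : Type := (Fin r → Fin 2) × (Fin m → Fin 2)

/-- the monomials -/
def mo (x : Fin r → Kˣ) (y : Fin m → O) (j : Jx r m) : K :=
  monY (p := 2) (fun i => (x i : K)) j.1 * monY (p := 2) (fun i => (y i : K)) j.2

include hx in
/-- the value of a combination of the monomials -/
theorem val_xy (hy : IsPB 2 (monY (p := 2) (fun j => residue O (y j))) ρ) (c : Jx r m → K)
    (hc : c ≠ 0) :
    (∑ j, c j ^ 2 * mo x y j) ≠ 0 ∧ ∀ j, O.valuation (c j ^ 2 * monY (p := 2)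
      (fun i => (x i : K)) j.1) ≤ O.valuation (∑ j, c j ^ 2 * mo x y j) := by
  -- the inner sums
  let s : (Fin r → Fin 2) → K := fun a =>
    ∑ e, c (a, e) ^ 2 * monY (p := 2) (fun i => (y i : K)) e
  have hsum : ∑ j, c j ^ 2 * mo x y j =
      ∑ a, s a * monY (p := 2) (fun i => (x i : K)) a := by
    rw [Fintype.sum_prod_type]
    refine Finset.sum_congr rfl fun a _ => ?_
    simp only [s, Finset.sum_mul]
    refine Finset.sum_congr rfl fun e _ => ?_
    unfold mo
    ring
  have hst : ∀ a, ∃ c0 : K, O.valuation (s a) = O.valuation (c0 ^ 2) ∧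
      ∀ e, O.valuation (c (a, e)) ≤ O.valuation c0 := by
    intro a
    by_cases ha : ∃ e, c (a, e) ≠ 0
    · obtain ⟨e0, _, h2, h3⟩ := val_y hy (fun e => c (a, e)) ha
      exact ⟨c (a, e0), h3, h2⟩
    · push Not at ha
      refine ⟨0, ?_, fun e => by rw [ha e]⟩
      have : s a = 0 := by
        simp only [s, ha]
        simp
      rw [this]
      simp
  choose c0 h0 h0' using hst
  have hval : ∀ a, O.valuation (s a * monY (p := 2) (fun i => (x i : K)) a) =
      O.valuation (c0 a ^ 2 * monY (p := 2) (fun i => (x i : K)) a) := by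
    intro a
    rw [map_mul, map_mul, h0]
  have hzero : ∀ a, s a * monY (p := 2) (fun i => (x i : K)) a = 0 ↔
      c0 a ^ 2 * monY (p := 2) (fun i => (x i : K)) a = 0 := by
    intro a
    rw [← map_eq_zero O.valuation, hval, map_eq_zero]
  have hne : ∃ a ∈ (Finset.univ : Finset (Fin r → Fin 2)),
      s a * monY (p := 2) (fun i => (x i : K)) a ≠ 0 := by
    obtain ⟨⟨a, e⟩, hae⟩ := Function.ne_iff.1 hc
    refine ⟨a, Finset.mem_univ _, fun h1 => ?_⟩
    rw [hzero] at h1
    have h2 : c0 a = 0 := by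
      rcases mul_eq_zero.1 h1 with h2 | h2
      · exact pow_eq_zero_iff (two_ne_zero) |>.1 h2
      · exact absurd h2 (monY_ne x a)
    have h3 := h0' a e
    rw [h2, map_zero, le_zero_iff, map_eq_zero] at h3
    exact hae h3
  obtain ⟨a, _, ha, hv, hmax⟩ := sum_dist O.valuation Finset.univ
    (fun a => s a * monY (p := 2) (fun i => (x i : K)) a)
    (by
      intro a _ a' _ haa h1 h2
      rw [hval, hval]
      exact term_dist b x hx a a' _ _ haa ((hzero a).not.1 h1) ((hzero a').not.1 h2)) hne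
  rw [← hsum] at hv
  refine ⟨?_, ?_⟩
  · intro h1
    rw [h1, map_zero] at hv
    exact ha ((map_eq_zero _).1 hv.symm)
  · rintro ⟨a', e⟩
    rw [hv]
    refine le_trans ?_ (hmax a' (Finset.mem_univ _))
    rw [hval, map_mul, map_mul, map_pow, map_pow]
    exact mul_le_mul_left (pow_le_pow_left₀ zero_le (h0' a' e) 2) _

theorem pb_pinv {ι : Type} [Fintype ι] [CharP K 2] {w : ι → K} {π : ι → K → K}
    (h : IsPB 2 w π) (a : ι) : IsPinv 2 (π a) where
  add u v := by
    have h1 : u + v = ∑ i, (π i u + π i v) ^ 2 * w i := by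
      have h2 : ∀ i, (π i u + π i v) ^ 2 * w i = π i u ^ 2 * w i + π i v ^ 2 * w i := fun i => by
        rw [CharTwo.add_sq, add_mul]
      simp_rw [h2]
      rw [Finset.sum_add_distrib, h.repr, h.repr]
    conv_lhs => rw [h1]
    exact h.uniq _ _
  pow_mul u v := by
    have h1 : u ^ 2 * v = ∑ i, (u * π i v) ^ 2 * w i := by
      conv_lhs => rw [← h.repr v, Finset.mul_sum]
      refine Finset.sum_congr rfl fun i _ => ?_
      ring
    conv_lhs => rw [h1]
    exact h.uniq _ _

include hx in
/-- the adapted operator -/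
theorem ada (hy : IsPB 2 (monY (p := 2) (fun j => residue O (y j))) ρ)
    {π : Jx r m → K → K} (hπ : IsPB 2 (mo x y) π) (z : K) (hz : z ∈ O) :
    π (j0, j0) z ∈ O ∧ Rs O (π (j0, j0) z) = ρ j0 (Rs O z) := by
  have hle : ∀ j, O.valuation (π j z ^ 2 * monY (p := 2) (fun i => (x i : K)) j.1) ≤
      O.valuation z := by
    intro j
    by_cases hc : (fun j => π j z) = 0
    · have : π j z = 0 := congrFun hc j
      rw [this]
      simp
    · have h1 := (val_xy b x hx hy (fun j => π j z) hc).2 j
      rwa [hπ.repr] at h1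
  have hz1 : O.valuation z ≤ 1 := (O.valuation_le_one_iff z).2 hz
  have hx0 : monY (p := 2) (fun i => (x i : K)) (j0 : Fin r → Fin 2) = 1 := by
    unfold monY j0
    simp
  have hmem : ∀ e, π (j0, e) z ∈ O := by
    intro e
    have h1 := (hle (j0, e)).trans hz1
    simp only [hx0, mul_one, map_pow] at h1
    rw [← O.valuation_le_one_iff]
    by_contra h2
    push Not at h2
    exact absurd h1 (not_le.2 (one_lt_pow₀ h2 two_ne_zero))
  refine ⟨hmem j0, ?_⟩
  have hterm : ∀ j, π j z ^ 2 * mo x y j ∈ O := by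
    intro j
    have h1 : π j z ^ 2 * mo x y j = π j z ^ 2 * monY (p := 2) (fun i => (x i : K)) j.1 *
        monY (p := 2) (fun i => (y i : K)) j.2 := by
      unfold mo; ring
    rw [h1]
    exact O.mul_mem _ _ ((O.valuation_le_one_iff _).1 ((hle j).trans hz1)) (monY_mem _)
  have hres : Rs O z = ∑ e, Rs O (π (j0, e) z) ^ 2 *
      monY (p := 2) (fun j => residue O (y j)) e := by
    conv_lhs => rw [← hπ.repr z]
    rw [Rs_sum _ _ fun j _ => hterm j, Fintype.sum_prod_type]
    rw [Finset.sum_eq_single (j0 : Fin r → Fin 2)]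
    · refine Finset.sum_congr rfl fun e _ => ?_
      have h1 : mo x y ((j0 : Fin r → Fin 2), e) = monY (p := 2) (fun i => (y i : K)) e := by
        unfold mo
        rw [hx0, one_mul]
      rw [h1, Rs_mul (pow_mem (hmem e) 2) (monY_mem e), Rs_pow (hmem e), Rs_monY]
    · intro a _ ha
      refine Finset.sum_eq_zero fun e _ => ?_
      rw [Rs_eq_zero (hterm _)]
      have h1 : π (a, e) z ^ 2 * mo x y (a, e) = π (a, e) z ^ 2 *
          monY (p := 2) (fun i => (x i : K)) a * monY (p := 2) (fun i => (y i : K)) e := by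
        unfold mo; ring
      have h2 : O.valuation (π (a, e) z ^ 2 * monY (p := 2) (fun i => (x i : K)) a) < 1 := by
        refine lt_of_le_of_ne ((hle (a, e)).trans hz1) ?_
        by_cases hc : π (a, e) z ^ 2 * monY (p := 2) (fun i => (x i : K)) a = 0
        · rw [hc, map_zero]
          exact zero_ne_one
        · have h3 := term_dist b x hx a j0 (π (a, e) z) 1 ha hc (by
            rw [hx0]; simp)
          rwa [hx0, one_pow, one_mul, map_one] at h3
      rw [h1, map_mul]
      have h4 := (O.valuation_le_one_iff _).2 (monY_mem (y := y) e)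
      calc _ ≤ O.valuation (π (a, e) z ^ 2 * monY (p := 2) (fun i => (x i : K)) a) * 1 :=
            mul_le_mul_right h4 _
        _ < 1 := by rwa [mul_one]
    · intro h
      exact absurd (Finset.mem_univ _) h
  rw [hres, hy.uniq]

end

end Pool.Agent.SuPR
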