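import Pool.Agent.Lib.MP_305fdd_al.Su.PR.Op
import Pool.Agent.Lib.MP_305fdd_al.Su.U.Rel

/-!
# MP_305fdd_al, surface groups, block PR: the base step of `PropR`

`K₁ < K`, `B` a finitely generated algebra with field of fractions `K`; if there is no semi-good
valuation of `K`, trivial on `K₁`, for `B`, then `PropR` holds.
-/

set_option autoImplicit false
set_option linter.unusedSectionVars false

namespace Pool.Agent.SuPR

open Pool.Agent.FrD Pool.Agent.FrF Pool.Agent.SuU IsLocalRing Pool.Agent.F2Ch Pool.Agent.F2RF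
  Pool.Agent.SuMin Pool.Agent.FrN
open scoped Classical

section

/-- two maps of log type are conjugate by a multiplication -/
theorem lt_conj {K : Type} [Field K] [CharP K 2] {φ ψ : K → K} (hφ : LogTy 2 φ) (hψ : LogTy 2 ψ) :
    ∃ g, g ≠ 0 ∧ ∀ f, φ f = g⁻¹ * ψ (g * f) := by
  obtain ⟨d, x, π, h, hM, hh, hψh⟩ := hψ
  obtain ⟨g, hg, hgφ⟩ := w4 2 K φ hφ d x π hM
  refine ⟨g / h, div_ne_zero hg hh, fun f => ?_⟩
  rw [hψh, hgφ]
  have e : h * (g / h * f) = g * f := by field_simp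
  rw [e]
  field_simp

theorem lt_ne {K : Type} [Field K] [CharP K 2] {φ : K → K} (hφ : LogTy 2 φ) : ∃ x, φ x ≠ 0 := by
  obtain ⟨d, x, π, h, hM, hh, hφh⟩ := hφ
  refine ⟨h⁻¹, ?_⟩
  rw [hφh, mul_inv_cancel₀ hh]
  have h1 := hM.pb.uniq (Pi.single j0 1) j0
  rw [Pi.single_eq_same] at h1
  have h2 : ∑ j, (Pi.single j0 1 : (Fin d → Fin 2) → K) j ^ 2 * monY (p := 2) x j = 1 := by
    rw [Finset.sum_eq_single j0]
    · rw [Pi.single_eq_same, one_pow, one_mul]
      unfold monY j0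
      simp
    · intro i _ hi
      rw [Pi.single_eq_of_ne hi, zero_pow two_ne_zero, zero_mul]
    · intro hj
      exact absurd (Finset.mem_univ _) hj
  rw [h2] at h1
  rw [h1, mul_one]
  exact inv_ne_zero hh

variable {K₁ K : Type} [Field K₁] [Field K] [Algebra K₁ K]

/-- the residues of the elements of `B` -/
noncomputable def resA (O : ValuationSubring K) (B : Subalgebra K₁ K) : Subring (ResidueField O) where
  carrier := {w | ∃ s ∈ B, s ∈ O ∧ Rs O s = w}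
  mul_mem' := by
    rintro _ _ ⟨s, hs, hs', rfl⟩ ⟨t, ht, ht', rfl⟩
    exact ⟨s * t, B.mul_mem hs ht, O.mul_mem _ _ hs' ht', Rs_mul hs' ht'⟩
  one_mem' := ⟨1, B.one_mem, O.one_mem, Rs_one⟩
  add_mem' := by
    rintro _ _ ⟨s, hs, hs', rfl⟩ ⟨t, ht, ht', rfl⟩
    exact ⟨s + t, B.add_mem hs ht, O.add_mem _ _ hs' ht', Rs_add hs' ht'⟩
  zero_mem' := ⟨0, B.zero_mem, O.zero_mem, Rs_zero⟩
  neg_mem' := by
    rintro _ ⟨s, hs, hs', rfl⟩
    refine ⟨-s, B.neg_mem hs, O.neg_mem _ hs', ?_⟩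
    have h1 := Rs_add hs' (O.neg_mem _ hs')
    rw [add_neg_cancel, Rs_zero] at h1
    exact (neg_eq_of_add_eq_zero_right h1.symm).symm

theorem resA_top {O : ValuationSubring K} {B : Subalgebra K₁ K} {d : ℕ} {f : Fin d → K}
    (h : Bal K₁ B O f) (hfrac : ∀ x : K, ∃ a ∈ B, ∃ b ∈ B, b ≠ 0 ∧ x * b = a)
    (hfd : @FiniteDimensional K₁ (ResidueField O) _ _ (ik h.triv).toAlgebra.toModule)
    (w : ResidueField O) : ∃ s ∈ B, s ∈ O ∧ Rs O s = w := by
  let _ : Algebra K₁ (ResidueField O) := (ik h.triv).toAlgebra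
  have hfd' : FiniteDimensional K₁ (ResidueField O) := hfd
  let A : Subalgebra K₁ (ResidueField O) := { resA O B with
    algebraMap_mem' := fun c => ⟨algebraMap K₁ K c, B.algebraMap_mem c, h.triv c, Rs_of _⟩ }
  obtain ⟨z, hz⟩ := residue_surjective w
  obtain ⟨a, ha, b, hb, hb0, hab⟩ := hfrac (z : K)
  obtain ⟨b', hb', hv⟩ := h.bal b hb hb0
  have hq : b * b' ∈ O := mem_of_val_one hv
  have hp : a * b' ∈ O := by
    rw [← hab, mul_assoc]
    exact O.mul_mem _ _ z.2 hq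
  have h1 : Rs O (a * b') = w * Rs O (b * b') := by
    rw [← hab, mul_assoc, Rs_mul z.2 hq, Rs_coe, hz]
  have hq0 : Rs O (b * b') ≠ 0 := Rs_ne_zero hv
  have hpA : Rs O (a * b') ∈ A := ⟨_, B.mul_mem ha hb', hp, rfl⟩
  have hqA : Rs O (b * b') ∈ A := ⟨_, B.mul_mem hb hb', hq, rfl⟩
  have hinv : (Rs O (b * b'))⁻¹ ∈ A := by
    have h2 : (Rs O (b * b'))⁻¹ ∈ Algebra.adjoin K₁ {Rs O (b * b')} :=
      (Algebra.IsIntegral.isIntegral (R := K₁) (Rs O (b * b'))).inv_mem_adjoin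
    exact (Algebra.adjoin_le (Set.singleton_subset_iff.2 hqA)) h2
  have h3 : w ∈ A := by
    have h4 : w = Rs O (a * b') * (Rs O (b * b'))⁻¹ := by
      rw [h1, mul_inv_cancel_right₀ hq0]
    rw [h4]
    exact A.mul_mem hpA hinv
  exact h3

variable [Algebra (ZMod 2) K₁] [Algebra (ZMod 2) K] [IsScalarTower (ZMod 2) K₁ K]

/-- THE BASE STEP of `PropR` -/
theorem propR_base (B₁ : Subalgebra (ZMod 2) K₁) (hB₁ : B₁.FG)
    (hfrac₁ : ∀ x : K₁, ∃ a ∈ B₁, ∃ b ∈ B₁, b ≠ 0 ∧ x * b = a) (B : Subalgebra (ZMod 2) K)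
    (hBB : ∀ b ∈ B₁, algebraMap K₁ K b ∈ B) (hB : B.FG)
    (hfrac : ∀ x : K, ∃ a ∈ B, ∃ b ∈ B, b ≠ 0 ∧ x * b = a)
    (hns : ¬ ∃ v : K → ℝ, IsV v ∧ Triv K₁ v ∧ (∃ x, v x ≠ 0) ∧ ∀ b ∈ B, b ≠ 0 → v b ≤ 0) :
    PropR 2 (algebraMap K₁ K) B.toSubring := by
  have hK2 : CharP K 2 := charP_of_injective_algebraMap (algebraMap (ZMod 2) K).injective 2
  have hK12 : CharP K₁ 2 := charP_of_injective_algebraMap (algebraMap (ZMod 2) K₁).injective 2
  set B' := Algebra.adjoin K₁ (B : Set K) with hB'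
  have hsub : ∀ b ∈ B, b ∈ B' := fun b hb => Algebra.subset_adjoin hb
  have hfg : B'.FG := by
    obtain ⟨S, hS⟩ := hB
    refine ⟨S, le_antisymm (Algebra.adjoin_mono ?_) ?_⟩
    · rw [← hS]
      exact Algebra.subset_adjoin
    · rw [hB', Algebra.adjoin_le_iff]
      intro b hb
      have hb' : b ∈ Algebra.adjoin (ZMod 2) (S : Set K) := by
        rw [hS]
        exact hb
      have h1 : Algebra.adjoin (ZMod 2) (S : Set K) ≤
          (Algebra.adjoin K₁ (S : Set K)).restrictScalars (ZMod 2) := by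
        rw [Algebra.adjoin_le_iff]
        exact Algebra.subset_adjoin
      exact h1 hb'
  have hfrac' : ∀ x : K, ∃ a ∈ B', ∃ b ∈ B', b ≠ 0 ∧ x * b = a := by
    intro x
    obtain ⟨a, ha, b, hb, hb0, h⟩ := hfrac x
    exact ⟨a, hsub a ha, b, hsub b hb, hb0, h⟩
  rcases dichotomy B' hfg hfrac' with h | ⟨O, d, f, h⟩
  · exfalso
    obtain ⟨v, hv, ht, hne, hle⟩ := h
    exact hns ⟨v, hv, ht, hne, fun b hb hb0 => hle b (hsub b hb) hb0⟩
  have hind := ind_units h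
  have hfd0 : FiniteDimensional (IntermediateField.adjoin K₁ (Set.range fun i =>
      ((Units.mk0 (f i) (h.ne i) : Kˣ) : K))) K := fd_adjoin B' hfg hfrac' f h.tb
  have hfdk := res_fd h.triv (fun i => Units.mk0 (f i) (h.ne i)) hind hfd0
  obtain ⟨P, Pb, m, yb, ρ, hP, hPb, hP0, hPb0, hPO, hM⟩ :=
    exists_op B₁ hB₁ hfrac₁ B hB hfrac B' hfg hfrac' h
  intro φ hφ ψ hψ c hc hc0
  obtain ⟨g, hg, hgφ⟩ := lt_conj hφ (logTy_fg hB hfrac hP hP0)
  -- the functional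
  obtain ⟨t, ht0, htP⟩ : ∃ t : ResidueField O → K₁, (∃ w, t w ≠ 0) ∧
      (∀ (β : K₁) w, t (ik h.triv β * w) = β * t w) ∧ ∀ w, t (Pb w) = ψ (t w) := by
    let _ : Algebra K₁ (ResidueField O) := (ik h.triv).toAlgebra
    have hfd' : FiniteDimensional K₁ (ResidueField O) := hfdk
    let _ : Algebra (ZMod 2) (ResidueField O) :=
      ((ik h.triv).comp (algebraMap (ZMod 2) K₁)).toAlgebra
    have hκ2 : CharP (ResidueField O) 2 :=
      charP_of_injective_algebraMap (algebraMap (ZMod 2) (ResidueField O)).injective 2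
    obtain ⟨t, ht, htP⟩ := exists_tau' (K₁ := K₁) hM (lt_pinv hψ) (lt_ne hψ) hPb hPb0
    refine ⟨t, ?_, ?_, htP⟩
    · by_contra hcon
      push Not at hcon
      exact ht (LinearMap.ext hcon)
    · intro β w
      have h1 : ik h.triv β * w = β • w := by
        rw [Algebra.smul_def]
        rfl
      rw [h1, map_smul, smul_eq_mul]
  obtain ⟨htβ, htP⟩ := htP
  -- the numerator
  obtain ⟨a1, ha1, a2, ha2, ha20, haa⟩ := hfrac (g * c)
  have ha10 : a1 ≠ 0 := by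
    rw [← haa]
    exact mul_ne_zero (mul_ne_zero hg hc0) ha20
  obtain ⟨a', ha', hv⟩ := h.bal a1 (hsub a1 ha1) ha10
  have hr0 : Rs O (a1 * a') ≠ 0 := Rs_ne_zero hv
  have hr : a1 * a' ∈ O := mem_of_val_one hv
  obtain ⟨w, hw⟩ := ht0
  obtain ⟨s, hs, hsO, hsw⟩ := resA_top h hfrac' hfdk (w * (Rs O (a1 * a'))⁻¹)
  obtain ⟨γ, hγ, hγ0, hγs⟩ := clr_adjoin B₁ hfrac₁ B hBB (B'.mul_mem ha' hs)
  have hu : Rs O (a1 * a' * s) = w := by
    rw [Rs_mul hr hsO, hsw, mul_comm, inv_mul_cancel_right₀ hr0]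
  have huO : a1 * a' * s ∈ O := O.mul_mem _ _ hr hsO
  refine ⟨a2 * (algebraMap K₁ K γ * (a' * s)), B.mul_mem ha2 hγs, γ * t w,
    mul_ne_zero hγ0 hw, fun β e h0 => ?_⟩
  rw [iter_conj φ P g hg hgφ] at h0
  have h1 := (mul_eq_zero.1 h0).resolve_left (inv_ne_zero hg)
  have h2 : g * (algebraMap K₁ K β * (a2 * (algebraMap K₁ K γ * (a' * s)) * c)) =
      algebraMap K₁ K (β * γ) * (a1 * a' * s) := by
    rw [← haa, map_mul]
    ring
  rw [h2] at h1
  have hzO : algebraMap K₁ K (β * γ) * (a1 * a' * s) ∈ O := O.mul_mem _ _ (h.triv _) huO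
  have hiter : ∀ (e : ℕ) (z : K), z ∈ O → P^[e] z ∈ O ∧ Rs O (P^[e] z) = Pb^[e] (Rs O z) := by
    intro e
    induction e with
    | zero => exact fun z hz => ⟨hz, rfl⟩
    | succ e ih =>
      intro z hz
      rw [Function.iterate_succ_apply', Function.iterate_succ_apply']
      obtain ⟨h3, h4⟩ := ih z hz
      obtain ⟨h5, h6⟩ := hPO _ h3
      exact ⟨h5, by rw [h6, h4]⟩
  have hit : ∀ (e : ℕ) (z : ResidueField O), t (Pb^[e] z) = ψ^[e] (t z) := by
    intro e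
    induction e with
    | zero => exact fun z => rfl
    | succ e ih =>
      intro z
      rw [Function.iterate_succ_apply', Function.iterate_succ_apply', htP, ih]
  have h3 := (hiter e _ hzO).2
  rw [h1, Rs_zero, Rs_mul (h.triv _) huO, hu] at h3
  have h4 : Rs O (algebraMap K₁ K (β * γ)) = ik h.triv (β * γ) := Rs_of _
  have h5 := hit e (ik h.triv (β * γ) * w)
  rw [← h4, ← h3] at h5
  have h6 : t 0 = 0 := by
    have := htβ 0 0
    rwa [mul_zero, zero_mul] at this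
  rw [h6, h4, htβ, mul_assoc] at h5
  exact h5.symm

end

end Pool.Agent.SuPR
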