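import Pool.Agent.Lib.MP_305fdd_al.Su.U.Bal

/-!
# MP_305fdd_al, surface groups, block PR: the residue field of a valuation ring of maximal rational
rank is a finite extension of the base field
-/

set_option autoImplicit false
set_option linter.unusedSectionVars false

namespace Pool.Agent.SuPR

open Pool.Agent.FrD Pool.Agent.FrF Pool.Agent.SuU Polynomial IsLocalRing
open scoped Classical

section

variable {k K : Type} [Field k] [Field K] [Algebra k K] {O : ValuationSubring K}

/-- the map from the base field to the residue field -/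
noncomputable def ik (htriv : ∀ c : k, algebraMap k K c ∈ O) : k →+* ResidueField O :=
  (residue O).comp ((algebraMap k K).codRestrict O.toSubring htriv)

theorem ik_apply (htriv : ∀ c : k, algebraMap k K c ∈ O) (c : k) :
    ik htriv c = residue O ⟨algebraMap k K c, htriv c⟩ := rfl

/-- the values are one at elements with nonzero residue -/
theorem val_of_res {z : O} (h : residue O z ≠ 0) : O.valuation (z : K) = 1 := by
  have h1 : ¬ O.valuation (z : K) < 1 := by
    intro h2
    apply h
    rw [residue_eq_zero_iff, O.valuation_lt_one_iff]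
    exact h2
  exact le_antisymm ((O.valuation_le_one_iff _).2 z.2) (not_lt.1 h1)

theorem poly_lift (htriv : ∀ c : k, algebraMap k K c ∈ O) {d : ℕ} (f : Fin d → Kˣ)
    (hind : ∀ a : Fin d → ℤ, vl O (∏ i, f i ^ a i) = 0 → a = 0) {ι : Type} [Fintype ι]
    (z : ι → O) (hz : ∀ c : ι → k, ∑ i, ik htriv (c i) * residue O (z i) = 0 → c = 0)
    (P : ι → MvPolynomial (Fin d) k)
    (h : ∑ i, MvPolynomial.aeval (fun i => (f i : K)) (P i) * (z i : K) = 0) : P = 0 := by
  by_contra hP
  let S : Finset (Fin d →₀ ℕ) := Finset.univ.biUnion fun i => (P i).support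
  let F : (Fin d →₀ ℕ) → Kˣ := fun m => ∏ i, f i ^ ((m i : ℕ) : ℤ)
  let u : (Fin d →₀ ℕ) → O := fun m =>
    ∑ i, (⟨algebraMap k K ((P i).coeff m), htriv _⟩ : O) * z i
  have hu : ∀ m, residue O (u m) = ∑ i, ik htriv ((P i).coeff m) * residue O (z i) := by
    intro m
    simp only [u, map_sum, map_mul]
    rfl
  have hu1 : ∀ m ∈ S, O.valuation (u m : K) = 1 := by
    intro m hm
    refine val_of_res fun h0 => ?_
    rw [hu] at h0
    have h1 := hz _ h0
    rw [Finset.mem_biUnion] at hm
    obtain ⟨i, _, hi⟩ := hm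
    exact (MvPolynomial.mem_support_iff.1 hi) (congrFun h1 i)
  have hmon : ∀ (m : Fin d →₀ ℕ) (c : k), MvPolynomial.aeval (fun i => (f i : K))
      (MvPolynomial.monomial m c) = algebraMap k K c * (F m : K) := by
    intro m c
    rw [MvPolynomial.aeval_monomial]
    congr 1
    rw [Finsupp.prod_fintype _ _ (fun i => pow_zero _)]
    simp [F]
  have hsum : ∑ i, MvPolynomial.aeval (fun i => (f i : K)) (P i) * (z i : K) =
      ∑ m ∈ S, (F m : K) * (u m : K) := by
    have h1 : ∀ i, MvPolynomial.aeval (fun i => (f i : K)) (P i) =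
        ∑ m ∈ S, algebraMap k K ((P i).coeff m) * (F m : K) := by
      intro i
      have h2 : P i = ∑ m ∈ S, MvPolynomial.monomial m ((P i).coeff m) := by
        conv_lhs => rw [← MvPolynomial.support_sum_monomial_coeff (P i)]
        refine Finset.sum_subset (Finset.subset_biUnion_of_mem (fun i => (P i).support)
          (Finset.mem_univ i)) ?_
        intro m _ hm
        rw [MvPolynomial.notMem_support_iff.1 hm, map_zero]
      conv_lhs => rw [h2, map_sum]
      exact Finset.sum_congr rfl fun m _ => hmon m _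
    have h3 : ∀ m, (u m : K) = ∑ i, algebraMap k K ((P i).coeff m) * (z i : K) := by
      intro m
      change O.subtype (u m) = _
      simp only [u, map_sum, map_mul]
      rfl
    simp only [h1, h3, Finset.sum_mul, Finset.mul_sum]
    rw [Finset.sum_comm]
    refine Finset.sum_congr rfl fun m _ => Finset.sum_congr rfl fun i _ => by ring
  obtain ⟨i0, hi0⟩ := Function.ne_iff.1 hP
  obtain ⟨m0, hm0⟩ := MvPolynomial.support_nonempty.2 hi0
  have hm0S : m0 ∈ S := Finset.mem_biUnion.2 ⟨i0, Finset.mem_univ _, hm0⟩
  have hv : ∀ m ∈ S, O.valuation ((F m : K) * (u m : K)) = O.valuation (F m : K) := by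
    intro m hm
    rw [map_mul, hu1 m hm, mul_one]
  have hne : ∀ m ∈ S, (F m : K) * (u m : K) ≠ 0 := by
    intro m hm h0
    have h1 := hv m hm
    rw [h0, map_zero] at h1
    exact (Units.ne_zero _) ((map_eq_zero _).1 h1.symm)
  obtain ⟨m, hm, hm', hvm, _⟩ := sum_dist O.valuation S (fun m => (F m : K) * (u m : K))
    (by
      intro m hm m' hm' hmm _ _ heq
      rw [hv m hm, hv m' hm', ← vl_inj] at heq
      apply hmm
      have h1 : vl O (∏ i, f i ^ (((m i : ℕ) : ℤ) - ((m' i : ℕ) : ℤ))) = 0 := by
        rw [vl_prod] at heq ⊢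
        rw [vl_prod] at heq
        simp only [vl_zpow] at heq ⊢
        simp only [sub_smul, Finset.sum_sub_distrib]
        exact sub_eq_zero.2 heq
      have h2 := hind _ h1
      ext i
      have h3 := congrFun h2 i
      simp only [Pi.zero_apply] at h3
      omega) ⟨m0, hm0S, hne m0 hm0S⟩
  rw [← hsum, h, map_zero] at hvm
  exact hm' ((map_eq_zero _).1 hvm.symm)

/-- lifts of independent residues are independent over `k(f)` -/
theorem indep_lift (htriv : ∀ c : k, algebraMap k K c ∈ O) {d : ℕ} (f : Fin d → Kˣ)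
    (hind : ∀ a : Fin d → ℤ, vl O (∏ i, f i ^ a i) = 0 → a = 0) {ι : Type} [Fintype ι]
    (z : ι → O) (hz : ∀ c : ι → k, ∑ i, ik htriv (c i) * residue O (z i) = 0 → c = 0) :
    LinearIndependent (IntermediateField.adjoin k (Set.range fun i => (f i : K)))
      (fun i => (z i : K)) := by
  rw [Fintype.linearIndependent_iff]
  intro g hg
  have hg' : ∑ i, (g i : K) * (z i : K) = 0 := hg
  have h1 : ∀ i, ∃ P Q : MvPolynomial (Fin d) k,
      MvPolynomial.aeval (fun i => (f i : K)) Q ≠ 0 ∧
      (g i : K) * MvPolynomial.aeval (fun i => (f i : K)) Q =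
        MvPolynomial.aeval (fun i => (f i : K)) P := by
    intro i
    obtain ⟨P, Q, hPQ⟩ := (IntermediateField.mem_adjoin_range_iff k _ _).1 (g i).2
    by_cases hQ : MvPolynomial.aeval (fun i => (f i : K)) Q = 0
    · refine ⟨0, 1, by rw [map_one]; exact one_ne_zero, ?_⟩
      rw [hPQ, hQ, div_zero, zero_mul, map_zero]
    · exact ⟨P, Q, hQ, by rw [hPQ, div_mul_cancel₀ _ hQ]⟩
  choose P Q hQ hPQ using h1
  let R : ι → MvPolynomial (Fin d) k := fun i => P i * ∏ j ∈ Finset.univ.erase i, Q j
  have hR : ∀ i, MvPolynomial.aeval (fun i => (f i : K)) (R i) =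
      (g i : K) * ∏ j, MvPolynomial.aeval (fun i => (f i : K)) (Q j) := by
    intro i
    simp only [R, map_mul, map_prod]
    rw [← hPQ, ← Finset.mul_prod_erase Finset.univ _ (Finset.mem_univ i), mul_assoc]
  have hR0 : R = 0 := by
    refine poly_lift htriv f hind z hz R ?_
    have h2 : ∀ i, MvPolynomial.aeval (fun i => (f i : K)) (R i) * (z i : K) =
        (∏ j, MvPolynomial.aeval (fun i => (f i : K)) (Q j)) * ((g i : K) * (z i : K)) := by
      intro i
      rw [hR]; ring
    simp only [h2, ← Finset.mul_sum]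
    rw [hg', mul_zero]
  intro i
  have h3 := hR i
  rw [hR0, Pi.zero_apply, map_zero] at h3
  apply Subtype.ext
  exact (mul_eq_zero.1 h3.symm).resolve_right (Finset.prod_ne_zero_iff.2 fun j _ => hQ j)

/-- the residue field is a finite extension -/
theorem res_fd (htriv : ∀ c : k, algebraMap k K c ∈ O) {d : ℕ} (f : Fin d → Kˣ)
    (hind : ∀ a : Fin d → ℤ, vl O (∏ i, f i ^ a i) = 0 → a = 0)
    (hfd : FiniteDimensional (IntermediateField.adjoin k (Set.range fun i => (f i : K))) K) :
    @FiniteDimensional k (ResidueField O) _ _ (ik htriv).toAlgebra.toModule := by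
  let _ : Algebra k (ResidueField O) := (ik htriv).toAlgebra
  set K0 := IntermediateField.adjoin k (Set.range fun i => (f i : K)) with hK0
  have h1 : Module.rank k (ResidueField O) ≤ Module.finrank K0 K := by
    refine rank_le fun s hs => ?_
    choose z hz using fun i : s => residue_surjective (R := O) (i : ResidueField O)
    have h2 := indep_lift htriv f hind z (fun c hc => by
      have h3 := Fintype.linearIndependent_iff.1 hs c (by
        rw [← hc]
        refine Finset.sum_congr rfl fun i _ => ?_
        rw [Algebra.smul_def, hz]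
        rfl)
      exact funext h3)
    have h4 := h2.fintype_card_le_finrank
    rwa [Fintype.card_coe] at h4
  exact Module.rank_lt_aleph0_iff.1 (lt_of_le_of_lt h1 (Cardinal.natCast_lt_aleph0))

end

end Pool.Agent.SuPR
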