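import Pool.Agent.Lib.MP_305fdd_al.Su.Min.H

/-!
# MP_305fdd_al, surface groups, block PR: functionals compatible with Cartier operators

`κ` is a finite extension of `K₁`; `ψ`, `P` are nonzero `2⁻¹`-linear maps of `K₁`, `κ`.  There is a
nonzero `K₁`-linear map `τ : κ → K₁` with `τ ∘ P = ψ ∘ τ`.
-/

set_option autoImplicit false
set_option linter.unusedSectionVars false

namespace Pool.Agent.SuPR

open Pool.Agent.F2Ch Pool.Agent.F2RF Pool.Agent.SuMin Pool.Agent.FrN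

section

variable {K₁ κ : Type} [Field K₁] [Field κ] [Algebra K₁ κ] [FiniteDimensional K₁ κ]

/-- the pairing given by a functional -/
noncomputable def pairing (t : κ →ₗ[K₁] K₁) : κ →ₗ[K₁] Module.Dual K₁ κ where
  toFun u := t.comp (LinearMap.mulRight K₁ u)
  map_add' u v := by
    ext y
    simp [mul_add]
  map_smul' c u := by
    ext y
    simp

theorem pairing_apply (t : κ →ₗ[K₁] K₁) (u y : κ) : pairing t u y = t (y * u) := rfl

theorem pairing_surj {t : κ →ₗ[K₁] K₁} (ht : t ≠ 0) : Function.Surjective (pairing t) := by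
  have hinj : Function.Injective (pairing t) := by
    rw [injective_iff_map_eq_zero]
    intro u hu
    by_contra h0
    apply ht
    ext w
    have h1 := LinearMap.congr_fun hu (w * u⁻¹)
    rw [pairing_apply, inv_mul_cancel_right₀ h0] at h1
    exact h1
  exact (LinearMap.injective_iff_surjective_of_finrank_eq_finrank
    (Subspace.dual_finrank_eq (K := K₁) (V := κ)).symm).1 hinj

theorem exists_phi [CharP K₁ 2] [CharP κ 2] {t : κ →ₗ[K₁] K₁} (ht : t ≠ 0) {ψ : K₁ → K₁}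
    (hψ : IsPinv 2 ψ) (hψ0 : ∃ x, ψ x ≠ 0) :
    ∃ φ : κ → κ, IsPinv 2 φ ∧ (∃ x, φ x ≠ 0) ∧ ∀ x, t (φ x) = ψ (t x) := by
  have hadd := hψ.add
  have hmul := hψ.pow_mul
  have key : ∀ x : κ, ∃ u : κ, ∀ y : κ, t (y * u) = ψ (t (y ^ 2 * x)) := by
    intro x
    let L : Module.Dual K₁ κ :=
      { toFun := fun y => ψ (t (y ^ 2 * x))
        map_add' := fun y y' => by
          rw [← hadd, ← map_add, ← add_mul, CharTwo.add_sq]
        map_smul' := fun a y => by
          have e : (a • y) ^ 2 * x = a ^ 2 • (y ^ 2 * x) := by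
            rw [smul_pow, smul_mul_assoc]
          rw [e, map_smul, smul_eq_mul, hmul]
          rfl }
    obtain ⟨u, hu⟩ := pairing_surj ht L
    exact ⟨u, fun y => by rw [← pairing_apply, hu]; rfl⟩
  choose φ hφ using key
  have hsep : ∀ u v : κ, (∀ y, t (y * u) = t (y * v)) → u = v := by
    intro u v huv
    by_contra hne
    apply ht
    ext w
    have h1 := huv (w * (u - v)⁻¹)
    rw [← sub_eq_zero, ← map_sub, ← mul_sub, inv_mul_cancel_right₀ (sub_ne_zero.2 hne)] at h1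
    exact h1
  refine ⟨φ, ⟨?_, ?_⟩, ?_, ?_⟩
  · intro x x'
    refine hsep _ _ fun y => ?_
    rw [mul_add, map_add, hφ, hφ, hφ, ← hadd, ← map_add, ← mul_add]
  · intro a x
    refine hsep _ _ fun y => ?_
    rw [hφ, ← mul_assoc y a, hφ]
    congr 2
    ring
  · obtain ⟨z, hz⟩ := hψ0
    obtain ⟨w, hw⟩ : ∃ w, t w ≠ 0 := by
      by_contra h
      push Not at h
      exact ht (LinearMap.ext h)
    refine ⟨(z * (t w)⁻¹) • w, fun h0 => hz ?_⟩
    have h1 := hφ ((z * (t w)⁻¹) • w) 1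
    rw [h0, mul_zero, map_zero, one_pow, one_mul, map_smul, smul_eq_mul,
      inv_mul_cancel_right₀ hw] at h1
    exact h1.symm
  · intro x
    have h1 := hφ x 1
    rwa [one_mul, one_pow, one_mul] at h1

theorem exists_tau' [CharP K₁ 2] [CharP κ 2] [Algebra (ZMod 2) κ] {d : ℕ} {b : Fin d → κ}
    {π : (Fin d → Fin 2) → κ → κ} (hM : MB 2 b π) {ψ : K₁ → K₁} (hψ : IsPinv 2 ψ)
    (hψ0 : ∃ x, ψ x ≠ 0) {P : κ → κ} (hP : IsPinv 2 P) (hP0 : ∃ x, P x ≠ 0) :
    ∃ t : κ →ₗ[K₁] K₁, t ≠ 0 ∧ ∀ x, t (P x) = ψ (t x) := by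
  obtain ⟨t₀, ht₀⟩ : ∃ t : κ →ₗ[K₁] K₁, t ≠ 0 := by
    have : Nontrivial (Module.Dual K₁ κ) := by
      rw [← Module.finrank_pos_iff (R := K₁), Subspace.dual_finrank_eq]
      exact Module.finrank_pos
    exact exists_ne (0 : Module.Dual K₁ κ)
  obtain ⟨φ, hφ, hφ0, hφt⟩ := exists_phi ht₀ hψ hψ0
  have hπ : IsPinv 2 (π j0) := mb_pinv hM j0
  have hz : ∀ {Q : κ → κ}, IsPinv 2 Q → Q 0 = 0 := by
    intro Q hQ
    have h0 := hQ.add 0 0
    rw [add_zero] at h0
    exact left_eq_add.1 h0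
  obtain ⟨w, hw⟩ : ∃ w, ∀ f, P f = π j0 (w * f) := ⟨_, fun f => pinv_eq hM hP f⟩
  obtain ⟨w', hw'⟩ : ∃ w, ∀ f, φ f = π j0 (w * f) := ⟨_, fun f => pinv_eq hM hφ f⟩
  have hw0 : w ≠ 0 := by
    rintro rfl
    obtain ⟨x, hx⟩ := hP0
    rw [hw, zero_mul, hz hπ] at hx
    exact hx rfl
  have hw0' : w' ≠ 0 := by
    rintro rfl
    obtain ⟨x, hx⟩ := hφ0
    rw [hw', zero_mul, hz hπ] at hx
    exact hx rfl
  have h1 : ∀ f, P f = (w / w') * φ ((w / w')⁻¹ * f) := by
    intro f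
    rw [← hφ.pow_mul, hw, hw']
    congr 1
    field_simp
  have hh0 : w / w' ≠ 0 := div_ne_zero hw0 hw0'
  refine ⟨t₀.comp (LinearMap.mulLeft K₁ (w / w')⁻¹), ?_, fun x => ?_⟩
  · intro h
    apply ht₀
    ext y
    have h2 := LinearMap.congr_fun h ((w / w') * y)
    rw [LinearMap.comp_apply, LinearMap.mulLeft_apply, inv_mul_cancel_left₀ hh0] at h2
    exact h2
  · rw [LinearMap.comp_apply, LinearMap.comp_apply, LinearMap.mulLeft_apply,
      LinearMap.mulLeft_apply, h1, inv_mul_cancel_left₀ hh0, hφt]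

end

end Pool.Agent.SuPR
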