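import Pool.Agent.Lib.MP_305fdd_al.Su.PR.Ada
import Pool.Agent.Lib.MP_305fdd_al.Su.PR.Lin

/-!
# MP_305fdd_al, surface groups, block PR: the Cartier operator adapted to a balanced valuation ring over
an imperfect base field
-/

set_option autoImplicit false
set_option linter.unusedSectionVars false

namespace Pool.Agent.SuPR

open Pool.Agent.FrD Pool.Agent.FrF Pool.Agent.SuU IsLocalRing Pool.Agent.F2Ch Pool.Agent.F2RF
open scoped Classical

section

/-- a finite extension of the fraction field of a finitely generated algebra is the fraction field of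
a finitely generated algebra -/
theorem fg_ext {K₁ κ : Type} [Field K₁] [Field κ] [Algebra (ZMod 2) K₁] [Algebra (ZMod 2) κ]
    [Algebra K₁ κ] [IsScalarTower (ZMod 2) K₁ κ] [FiniteDimensional K₁ κ]
    (B₁ : Subalgebra (ZMod 2) K₁) (hB₁ : B₁.FG)
    (hfrac₁ : ∀ x : K₁, ∃ a ∈ B₁, ∃ b ∈ B₁, b ≠ 0 ∧ x * b = a) :
    ∃ B : Subalgebra (ZMod 2) κ, B.FG ∧ ∀ x : κ, ∃ a ∈ B, ∃ b ∈ B, b ≠ 0 ∧ x * b = a := by
  obtain ⟨S, hS⟩ := hB₁
  let bs := Module.finBasis K₁ κ
  let G : Finset κ := S.image (algebraMap K₁ κ) ∪ Finset.univ.image bs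
  let B : Subalgebra (ZMod 2) κ := Algebra.adjoin (ZMod 2) (G : Set κ)
  have hB1 : ∀ b ∈ B₁, algebraMap K₁ κ b ∈ B := by
    intro b hb
    have h1 : B₁ ≤ B.comap (IsScalarTower.toAlgHom (ZMod 2) K₁ κ) := by
      rw [← hS, Algebra.adjoin_le_iff]
      intro z hz
      refine Algebra.subset_adjoin ?_
      rw [Finset.mem_coe, Finset.mem_union]
      exact Or.inl (Finset.mem_image_of_mem _ hz)
    exact h1 hb
  have hbs : ∀ i, bs i ∈ B := by
    intro i
    refine Algebra.subset_adjoin ?_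
    rw [Finset.mem_coe, Finset.mem_union]
    exact Or.inr (Finset.mem_image_of_mem _ (Finset.mem_univ i))
  refine ⟨B, ⟨G, rfl⟩, fun x => ?_⟩
  have hx : x ∈ Algebra.adjoin K₁ (B : Set κ) := by
    rw [← bs.sum_repr x]
    refine Subalgebra.sum_mem _ fun i _ => ?_
    exact Subalgebra.smul_mem _ (Algebra.subset_adjoin (hbs i)) _
  obtain ⟨s, hs, hs0, hsx⟩ := clr_adjoin B₁ hfrac₁ B hB1 hx
  refine ⟨_, hsx, algebraMap K₁ κ s, hB1 s hs, ?_, mul_comm _ _⟩
  rw [Ne, map_eq_zero]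
  exact hs0

variable {K₁ K : Type} [Field K₁] [Field K] [Algebra (ZMod 2) K₁] [Algebra (ZMod 2) K]
  [Algebra K₁ K] [IsScalarTower (ZMod 2) K₁ K]

theorem exists_op (B₁ : Subalgebra (ZMod 2) K₁) (hB₁ : B₁.FG)
    (hfrac₁ : ∀ x : K₁, ∃ a ∈ B₁, ∃ b ∈ B₁, b ≠ 0 ∧ x * b = a) (B : Subalgebra (ZMod 2) K)
    (hB : B.FG) (hfrac : ∀ x : K, ∃ a ∈ B, ∃ b ∈ B, b ≠ 0 ∧ x * b = a)
    (B' : Subalgebra K₁ K) (hB' : B'.FG)
    (hfrac' : ∀ x : K, ∃ a ∈ B', ∃ b ∈ B', b ≠ 0 ∧ x * b = a)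
    {O : ValuationSubring K} {d : ℕ} {f : Fin d → K} (h : Bal K₁ B' O f) :
    ∃ (P : K → K) (Pb : ResidueField O → ResidueField O) (m : ℕ) (yb : Fin m → ResidueField O)
      (ρ : (Fin m → Fin 2) → ResidueField O → ResidueField O), IsPinv 2 P ∧ IsPinv 2 Pb ∧
      (∃ x, P x ≠ 0) ∧ (∃ x, Pb x ≠ 0) ∧ (∀ z ∈ O, P z ∈ O ∧ Rs O (P z) = Pb (Rs O z)) ∧
      MB 2 yb ρ := by
  have hK2 : CharP K 2 := charP_of_injective_algebraMap (algebraMap (ZMod 2) K).injective 2
  have hK12 : CharP K₁ 2 := charP_of_injective_algebraMap (algebraMap (ZMod 2) K₁).injective 2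
  -- the value group
  have hind := ind_units h
  have hfd : FiniteDimensional (IntermediateField.adjoin K₁ (Set.range fun i =>
      ((Units.mk0 (f i) (h.ne i) : Kˣ) : K))) K := fd_adjoin B' hB' hfrac' f h.tb
  have hq := fin_quot h.triv (fun i => Units.mk0 (f i) (h.ne i)) hind hfd
  have hfs : Module.Finite ℤ (fsp O fun i => Units.mk0 (f i) (h.ne i)) :=
    Module.Finite.span_of_finite ℤ (Set.finite_range _)
  have hfM : Module.Finite ℤ (Additive (O.ValueGroup)ˣ) :=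
    Module.Finite.of_submodule_quotient (fsp O fun i => Units.mk0 (f i) (h.ne i))
  have hfr : Module.Free ℤ (Additive (O.ValueGroup)ˣ) := Module.free_of_finite_type_torsion_free'
  obtain ⟨r, ⟨b⟩, hr⟩ : ∃ r : ℕ, Nonempty (Module.Basis (Fin r) ℤ (Additive (O.ValueGroup)ˣ)) ∧
      Module.finrank ℤ (Additive (O.ValueGroup)ˣ) = r :=
    ⟨_, ⟨Module.finBasis ℤ (Additive (O.ValueGroup)ˣ)⟩, rfl⟩
  choose x hx using fun i => vl_surj O (b i)
  have hdr : d ≤ r := by
    have hli : LinearIndependent ℤ (fun i => vl O (Units.mk0 (f i) (h.ne i))) := by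
      rw [Fintype.linearIndependent_iff]
      intro g hg
      have h1 := hind g (by
        rw [vl_prod]
        simp only [vl_zpow]
        exact hg)
      intro i
      rw [h1]
      rfl
    have h1 := hli.fintype_card_le_finrank
    rwa [Fintype.card_fin, hr] at h1
  -- the residue field
  let _ : Algebra K₁ (ResidueField O) := (ik h.triv).toAlgebra
  have hfdk : FiniteDimensional K₁ (ResidueField O) :=
    res_fd h.triv (fun i => Units.mk0 (f i) (h.ne i)) hind hfd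
  let _ : Algebra (ZMod 2) (ResidueField O) := ((ik h.triv).comp (algebraMap (ZMod 2) K₁)).toAlgebra
  have htow : IsScalarTower (ZMod 2) K₁ (ResidueField O) := IsScalarTower.of_algebraMap_eq' rfl
  have hκ2 : CharP (ResidueField O) 2 :=
    charP_of_injective_algebraMap (algebraMap (ZMod 2) (ResidueField O)).injective 2
  obtain ⟨Bκ, hBκ, hBκf⟩ := fg_ext (κ := ResidueField O) B₁ hB₁ hfrac₁
  obtain ⟨n1, t1, ht1⟩ := fracGen_of_fg Bκ hBκ hBκf
  obtain ⟨m, e1, ρ1, htr1, hPB1⟩ := p_B4 2 (ZMod 2) (ResidueField O) n1 t1 ht1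
  obtain ⟨yb, ρ, hyb, hρ⟩ := t_C5 2 (ResidueField O) m e1 ρ1 hPB1
  choose y hy using fun j => residue_surjective (R := O) (yb j)
  have hρ' : IsPB 2 (monY (p := 2) (fun j => residue O (y j))) ρ := by
    have : (fun j => residue O (y j)) = yb := funext hy
    rwa [this]
  -- the field `K`
  obtain ⟨n2, t2, ht2⟩ := fracGen_of_fg B hB hfrac
  obtain ⟨D, e2, ρ2, htr2, hPB2⟩ := p_B4 2 (ZMod 2) K n2 t2 ht2
  have hD : D = m + d := by
    have h1 : Algebra.trdeg (ZMod 2) K₁ + Algebra.trdeg K₁ (ResidueField O) =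
        Algebra.trdeg (ZMod 2) (ResidueField O) := trdeg_add_eq (ZMod 2) K₁
    have h2 : Algebra.trdeg (ZMod 2) K₁ + Algebra.trdeg K₁ K = Algebra.trdeg (ZMod 2) K :=
      trdeg_add_eq (ZMod 2) K₁
    have h3 : Algebra.trdeg K₁ (ResidueField O) = 0 := trdeg_eq_zero
    have h4 := h.tb.cardinalMk_eq_trdeg
    rw [Cardinal.mk_fin] at h4
    rw [h3, add_zero, htr1] at h1
    rw [h1, ← h4, htr2] at h2
    exact_mod_cast h2.symm
  -- the monomials
  have hB1 := p_B1 2 K (Fin (2 ^ D)) e2 ρ2 hPB2 (Jx r m) (mo x y) (by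
    intro a ha
    by_contra hne
    exact (val_xy b x hx hρ' a hne).1 ha)
  have hcard : Fintype.card (Jx r m) = 2 ^ (m + r) := by
    rw [Fintype.card_prod, Fintype.card_fun, Fintype.card_fun, Fintype.card_fin, Fintype.card_fin,
      Fintype.card_fin, pow_add, mul_comm]
  rw [hcard, Fintype.card_fin, hD] at hB1
  have hrd : r ≤ d := by
    have h1 := (Nat.pow_le_pow_iff_right (a := 2) one_lt_two).1 hB1.1
    omega
  obtain rfl : r = d := le_antisymm hrd hdr
  obtain ⟨π, hπ⟩ := hB1.2 rfl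
  have hone : ∀ {L ι : Type} [Field L] [Fintype ι] {w : ι → L} {q : ι → L → L} (_ : IsPB 2 w q)
      (j : ι), q j (w j) = 1 := by
    intro L ι _ _ w q hq j
    have h1 := hq.uniq (Pi.single j 1) j
    rw [Pi.single_eq_same] at h1
    rw [← h1]
    congr 1
    rw [Finset.sum_eq_single j]
    · rw [Pi.single_eq_same, one_pow, one_mul]
    · intro i _ hi
      rw [Pi.single_eq_of_ne hi, zero_pow two_ne_zero, zero_mul]
    · intro hj
      exact absurd (Finset.mem_univ j) hj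
  refine ⟨π (j0, j0), ρ j0, m, yb, ρ, pb_pinv hπ _, ?_, ⟨_, by rw [hone hπ]; exact one_ne_zero⟩,
    ⟨_, by rw [hone hρ]; exact one_ne_zero⟩, fun z hz => ada b x hx hρ' hπ z hz, hyb, hρ⟩
  exact Pool.Agent.FrN.mb_pinv ⟨hyb, hρ⟩ j0

end

end Pool.Agent.SuPR
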